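import Pool.Agent.H69.LQ.Lib

/-! Row SW: Stone-Weierstrass on the sphere. -/

set_option autoImplicit false

open MeasureTheory Metric Set
open scoped ENNReal
open Pool.Agent.H85.LK (E adm lam Ann)
open Pool.Agent.H69.LQ

namespace Pool.Agent.H13.LQ

/-- the coordinate functions on the sphere -/
def crd (N : ℕ) (i : Fin N) : C(Sp N, ℝ) where
  toFun θ := (θ : E N) i
  continuous_toFun := by
    have h : Continuous fun x : E N => x i := (EuclideanSpace.proj i).continuous
    exact h.comp continuous_subtype_val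

theorem pf_SW : T_SW := by
  intro N f ε _ hf hε
  let A : Subalgebra ℝ C(Sp N, ℝ) := (MvPolynomial.aeval (R := ℝ) (crd N)).range
  have hsep : A.SeparatesPoints := by
    intro x y hxy
    have h1 : (x : E N) ≠ y := fun h => hxy (Subtype.ext h)
    obtain ⟨i, hi⟩ : ∃ i, (x : E N) i ≠ (y : E N) i := by
      by_contra hcon
      push Not at hcon
      apply h1
      ext i
      exact hcon i
    refine ⟨fun θ => crd N i θ, ⟨crd N i, ⟨MvPolynomial.X i, ?_⟩, rfl⟩, hi⟩
    exact MvPolynomial.aeval_X (crd N) i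
  have hcomp : CompactSpace (Sp N) := inferInstance
  obtain ⟨g, hg⟩ := ContinuousMap.exists_mem_subalgebra_near_continuous_of_separatesPoints A hsep
    f hf ε hε
  obtain ⟨P, hP⟩ := g.2
  refine ⟨P, fun θ => ?_⟩
  have h2 : ev P (θ : E N) = (g : C(Sp N, ℝ)) θ := by
    rw [← hP]
    have h3 : ((ContinuousMap.evalAlgHom ℝ ℝ θ : C(Sp N, ℝ) →ₐ[ℝ] ℝ).comp
        (MvPolynomial.aeval (R := ℝ) (crd N))) =
        MvPolynomial.aeval (R := ℝ) (fun i => (θ : E N) i) := by
      apply MvPolynomial.algHom_ext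
      intro i
      rw [AlgHom.comp_apply, MvPolynomial.aeval_X, MvPolynomial.aeval_X]
      rfl
    have h4 := DFunLike.congr_fun h3 P
    rw [ev, ← MvPolynomial.coe_aeval_eq_eval]
    exact h4.symm
  have h5 := hg θ
  rw [Real.norm_eq_abs] at h5
  rw [h2, abs_sub_comm]
  exact h5.le

end Pool.Agent.H13.LQ
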